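import Mathlib

set_option autoImplicit false

namespace Pool.Agent.H.MP_dce2ef_gt

open Set Topology Filter Metric Function

def e : Fin 3 → ℝ × ℝ := ![(0, 0), (1, 0), (0, 1)]

noncomputable def g (i : Fin 3) (x : ℝ × ℝ) : ℝ × ℝ := (1 / 2 : ℝ) • (x + e i)

noncomputable def h (w : List (Fin 3)) (x : ℝ × ℝ) : ℝ × ℝ := w.foldr g x

def G : Set (ℝ × ℝ) := ⋂₀ {C | IsClosed C ∧ {x | x.1 ∈ Icc 0 1 ∧ x.2 = 0} ∪
  {x | x.1 = 0 ∧ x.2 ∈ Icc 0 1} ⊆ C ∧ ∀ i, MapsTo (g i) C C}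

def Q : Set (ℝ × ℝ) := range fun p : List (Fin 3) × Fin 3 × Fin 3 => h p.1 (g p.2.1 (e p.2.2))

theorem hd (w x y) : dist (h w x) (h w y) = (1 / 2) ^ w.length * dist x y := by
  induction w with
  | nil => simp [h]
  | cons i w k => simp [h, g, dist_smul₀, pow_succ'] at k ⊢; rw [k]; ring

theorem hc (w) : Continuous (h w) := by
  induction w with
  | nil => exact continuous_id
  | cons i w k => exact (k.add continuous_const).const_smul (1 / 2 : ℝ)

theorem hi (w) : Injective (h w) := fun x y k => by simpa [k] using (hd w x y).symm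

theorem ha (w u x) : h (w ++ u) x = h w (h u x) := List.foldr_append

theorem g1 : IsClosed G := isClosed_sInter fun _ => And.left

theorem g2 : {x | x.1 ∈ Icc 0 1 ∧ x.2 = 0} ∪ {x | x.1 = 0 ∧ x.2 ∈ Icc 0 1} ⊆ G :=
  subset_sInter fun _ k => k.2.1

theorem g3 (i) : MapsTo (g i) G G := fun _ k C c => c.2.2 i (k C c)

theorem g4 : ∀ x ∈ G, 0 ≤ x.1 ∧ 0 ≤ x.2 ∧ x.1 + x.2 ≤ 1 := fun x k =>
  k {x | 0 ≤ x.1 ∧ 0 ≤ x.2 ∧ x.1 + x.2 ≤ 1} ⟨(isClosed_le continuous_const continuous_fst).inter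
    ((isClosed_le continuous_const continuous_snd).inter (isClosed_le
      (continuous_fst.add continuous_snd) continuous_const)), by rintro x (⟨a, b⟩ | ⟨a, b⟩) <;> simp_all, fun i x k => by
      obtain ⟨a, b, c⟩ := k
      fin_cases i <;> simp [g, e] <;> refine ⟨?_, ?_, ?_⟩ <;> linarith⟩

theorem gk : IsCompact G := (isCompact_Icc (a := (0, 0)) (b := (1, 1))).of_isClosed_subset g1
  fun x k => by
    obtain ⟨a, b, c⟩ := g4 x k
    exact ⟨⟨a, b⟩, by linarith, by linarith⟩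

theorem ge (i) : e i ∈ G := g2 (by fin_cases i <;> simp [e])

theorem gf (i) : g i (e i) = e i := by fin_cases i <;> simp [g, e] <;> norm_num

theorem gs : ∀ x ∈ G, ∃ i, x ∈ g i '' G := fun x k => mem_iUnion.1 (k (⋃ i, g i '' G)
  ⟨(isCompact_iUnion fun i => gk.image (hc [i])).isClosed, by
    rintro ⟨a, b⟩ (⟨⟨u, v⟩, rfl⟩ | ⟨rfl, u, v⟩) <;> rw [mem_iUnion]
    · rcases le_total a (1 / 2) with c | c
      · exact ⟨0, (2 * a, 0), g2 (.inl ⟨⟨by linarith, by linarith⟩, rfl⟩), by simp [g, e]⟩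
      · exact ⟨1, (2 * a - 1, 0), g2 (.inl ⟨⟨by linarith, by linarith⟩, rfl⟩), by simp [g, e]⟩
    · rcases le_total b (1 / 2) with c | c
      · exact ⟨0, (0, 2 * b), g2 (.inr ⟨rfl, by linarith, by linarith⟩), by simp [g, e]⟩
      · exact ⟨2, (0, 2 * b - 1), g2 (.inr ⟨rfl, by linarith, by linarith⟩), by simp [g, e]⟩,
    fun i x k => by
      obtain ⟨j, y, a, rfl⟩ := mem_iUnion.1 k
      exact mem_iUnion.2 ⟨i, _, g3 j a, rfl⟩⟩)

theorem gp : IsPreconnected G := by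
  have b : {x | x.1 ∈ Icc 0 1 ∧ x.2 = 0} ∪ {x | x.1 = 0 ∧ x.2 ∈ Icc 0 1} ⊆
      connectedComponentIn G (0, 0) := IsPreconnected.subset_connectedComponentIn
    ((isPreconnected_Icc.prod isPreconnected_singleton).union (0, 0) (by simp) (by simp)
      (isPreconnected_singleton.prod isPreconnected_Icc)) (by simp) g2
  have c : ∀ i, e i ∈ connectedComponentIn G (0, 0) := fun i => b (by fin_cases i <;> simp [e])
  have := connectedComponentIn_subset G (0, 0)
  refine this.antisymm (sInter_subset_of_mem ⟨?_, b, fun i => mapsTo_iff_image_subset.2 ?_⟩) ▸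
    isPreconnected_connectedComponentIn
  · exact closure_subset_iff_isClosed.1 (isPreconnected_connectedComponentIn.closure
      |>.subset_connectedComponentIn (subset_closure (c 0)) (closure_minimal this g1))
  · rw [connectedComponentIn_eq (c i)]
    exact (isPreconnected_connectedComponentIn.image _ (hc [i]).continuousOn)
      |>.subset_connectedComponentIn ⟨_, mem_connectedComponentIn (ge i), gf i⟩
      (image_subset_iff.2 fun x k => g3 i (connectedComponentIn_subset _ _ k))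

theorem hG (w) : h w '' G ⊆ G := by
  induction w with
  | nil => simp [h]
  | cons i w k => exact image_subset_iff.2 fun x a => g3 i (k ⟨x, a, rfl⟩)

theorem hs (w) : ∀ x ∈ h w '' G, ∃ i, x ∈ h (w ++ [i]) '' G := by
  rintro _ ⟨x, a, rfl⟩
  obtain ⟨i, y, b, rfl⟩ := gs x a
  exact ⟨i, y, b, ha ..⟩

theorem hn (n : ℕ) : ∀ x ∈ G, ∃ w : List (Fin 3), w.length = n ∧ x ∈ h w '' G := fun x k => by
  induction n with
  | zero => exact ⟨[], rfl, x, k, rfl⟩
  | succ n a =>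
    obtain ⟨w, a, b⟩ := a
    exact (hs w x b).elim fun i c => ⟨_, by simp [a], c⟩

theorem hq {w i j x} (d : i ≠ j) (a : x ∈ h (w ++ [i]) '' G) (b : x ∈ h (w ++ [j]) '' G) :
    x ∈ Q := by
  obtain ⟨y, u, rfl⟩ := a
  obtain ⟨z, v, c⟩ := b
  rw [ha, ha] at c
  refine ⟨(w, i, j), (congrArg (h w) (congrArg (g i) ?_)).trans (ha w [i] y).symm⟩
  obtain ⟨c1, c2⟩ := Prod.ext_iff.1 (hi w c)
  obtain ⟨u1, u2, u3⟩ := g4 _ u
  obtain ⟨v1, v2, v3⟩ := g4 _ v
  fin_cases i <;> fin_cases j <;> simp [h, g, e, Prod.ext_iff] at d c1 c2 ⊢ <;>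
    constructor <;> linarith

theorem sm {ε : ℝ} (k : 0 < ε) : ∃ n, ∀ w : List (Fin 3), n ≤ w.length → ∀ x ∈ h w '' G,
    h w '' G ⊆ ball x ε := by
  obtain ⟨n, a⟩ := exists_pow_lt_of_lt_one k one_half_lt_one
  refine ⟨n, ?_⟩
  rintro w l _ ⟨x, u, rfl⟩ _ ⟨y, v, rfl⟩
  obtain ⟨u1, u2, u3⟩ := g4 _ u
  obtain ⟨v1, v2, v3⟩ := g4 _ v
  exact (hd ..).trans_lt ((mul_le_of_le_one_right (by positivity) (max_le
    (abs_le.2 ⟨by linarith, by linarith⟩) (abs_le.2 ⟨by linarith, by linarith⟩))).trans_lt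
    ((pow_le_pow_of_le_one (by norm_num) (by norm_num) l).trans_lt a))

theorem f3 {K : Set (ℝ × ℝ)} (p : IsPreconnected K) (s : K ⊆ G) (q : ∀ x ∈ K, x ∉ Q) :
    K.Subsingleton := by
  have : ∀ n, ∃ w : List (Fin 3), w.length = n ∧ K ⊆ h w '' G := fun n => by
    induction n with
    | zero => exact ⟨[], rfl, fun x k => ⟨x, s k, rfl⟩⟩
    | succ n a =>
      obtain ⟨w, a, b⟩ := a
      have c := fun i => (gk.image (hc (w ++ [i]))).isClosed
      have d := isPreconnected_iff_subset_of_disjoint_closed.1 p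
      rcases d _ _ (c 0) ((c 1).union (c 2)) (fun x k => by
        obtain ⟨i, k⟩ := hs w x (b k)
        fin_cases i
        exacts [.inl k, .inr (.inl k), .inr (.inr k)]) (eq_empty_of_forall_notMem fun x k =>
          q x k.1 (k.2.2.elim (hq (by decide) k.2.1) (hq (by decide) k.2.1))) with f | f
      · exact ⟨_, by simp [a], f⟩
      · rcases d _ _ (c 1) (c 2) f (eq_empty_of_forall_notMem fun x k =>
          q x k.1 (hq (by decide) k.2.1 k.2.2)) with f | f <;> exact ⟨_, by simp [a], f⟩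
  refine fun x a y b => eq_of_forall_dist_le fun ε k => ?_
  obtain ⟨n, c⟩ := sm k
  obtain ⟨w, u, v⟩ := this n
  exact (c w u.ge y (v b) (v a)).le

theorem f4 (w) {x} (q : x ∉ Q) : IsPreconnected (h w '' G \ {x}) := by
  have p := fun w => gp.image _ (hc w).continuousOn
  by_cases k : x ∉ h w '' G
  · simpa [k] using p w
  have : ∀ n, ∃ u : List (Fin 3), u.length = w.length + n ∧ x ∈ h u '' G ∧ h u '' G ⊆ h w '' G ∧
      ∃ S, IsPreconnected S ∧ S ⊆ h w '' G \ {x} ∧ h w '' G ⊆ S ∪ h u '' G ∧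
        (S = ∅ ∨ ∃ i, ∀ j ≠ i, h u (e j) ∈ S) := fun n => by
    induction n with
    | zero => exact ⟨w, rfl, not_not.1 k, Subset.rfl, ∅, isPreconnected_empty, by simp⟩
    | succ n a =>
      obtain ⟨u, a, b, c, S, s1, s2, s3, s4⟩ := a
      obtain ⟨i, d⟩ := hs u x b
      have f : ∀ j, h (u ++ [j]) '' G ⊆ h w '' G := fun j => image_subset_iff.2 fun y v =>
        c ⟨_, g3 j v, (ha u [j] y).symm⟩
      have m : ∀ i j, h (u ++ [i]) (e j) ∈ h (u ++ [j]) '' G := fun i j =>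
        ⟨_, ge i, by rw [ha, ha]; simp only [h, g, List.foldr, add_comm]⟩
      have t : IsPreconnected (⋃ j ∈ ({i}ᶜ : Set (Fin 3)), h (u ++ [j]) '' G) :=
        .biUnion_of_reflTransGen (fun j _ => p _) fun j _ l _ => .single ⟨⟨_, ⟨_, ge l, rfl⟩,
          m j l⟩, ‹_›⟩
      refine ⟨_, by simp [a, add_assoc], d, f i, S ∪ _, ?_, union_subset s2 (iUnion₂_subset
        fun j v y z => ⟨f j z, fun r => q (hq v (r ▸ z) d)⟩), fun y v => ?_,
        .inr ⟨i, fun j v => .inr (mem_biUnion v (m i j))⟩⟩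
      · rcases s4 with rfl | ⟨l, s4⟩
        · simpa using t
        · obtain ⟨j, v, z⟩ : ∃ j, j ≠ i ∧ j ≠ l := (by decide : ∀ i l : Fin 3, ∃ j, j ≠ i ∧ j ≠ l) i l
          exact s1.union _ (s4 j z) (mem_biUnion v ⟨_, ge j, by rw [ha]; simp [h, gf]⟩) t
      · rcases s3 v with v | v
        · exact .inl (.inl v)
        · obtain ⟨j, v⟩ := hs u y v
          by_cases r : j = i
          exacts [.inr (r ▸ v), .inl (.inr (mem_biUnion r v))]
  refine isPreconnected_of_forall_pair fun y a z b => ?_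
  obtain ⟨n, c⟩ := sm (lt_min (dist_pos.2 a.2) (dist_pos.2 b.2))
  obtain ⟨u, l, v, -, S, s1, s2, s3, -⟩ := this n
  exact ⟨S, s2, (s3 a.1).resolve_right fun r => (mem_ball.1 (c u (by omega) x v r)).not_ge
    inf_le_left,
    (s3 b.1).resolve_right fun r => (mem_ball.1 (c u (by omega) x v r)).not_ge inf_le_right, s1⟩

end Pool.Agent.H.MP_dce2ef_gt
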