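import Pool.Agent.H.MP_dce2ef_gt.A
import Pool.Agent.H.MP_da03b0_gt.A

set_option autoImplicit false

namespace Pool.Agent.H.MP_dce2ef_gt

open Set Topology Filter Metric Function

theorem lim {P : ℕ → Type} [∀ k, TopologicalSpace (P k)] [∀ k, CompactSpace (P k)]
    [∀ k, T2Space (P k)] {f : ∀ k, P (k + 1) → P k} (c : ∀ k, Continuous (f k))
    (m : ∀ k y, IsConnected (f k ⁻¹' {y})) (o : ∀ k, P k) (i : ℕ) (y : P i) :
    IsConnected {x : ∀ k, P k | (∀ k, f k (x (k + 1)) = x k) ∧ x i = y} := by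
  have u : ∀ n (x : ∀ k, P k) z, (∀ k < n, f k (x (k + 1)) = x k) → f n z = x n →
      ∀ k < n + 1, f k (update x (n + 1) z (k + 1)) = update x (n + 1) z k := fun n x z a b k d => by
    rw [update_of_ne d.ne]
    rcases (Nat.le_of_lt_succ d).eq_or_lt with rfl | d
    · rwa [update_self]
    · rw [update_of_ne (by omega), a k d]
  have s : ∀ i y, ∃ x : ∀ k, P k, (∀ k, f k (x (k + 1)) = x k) ∧ x i = y := fun i y => by
    refine (IsCompact.nonempty_iInter_of_sequence_nonempty_isCompact_isClosed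
      (fun n => {x : ∀ k, P k | x i = y} ∩ ⋂ k < i + n, {x | f k (x (k + 1)) = x k})
      (fun n => inter_subset_inter_right _ (biInter_subset_biInter_left (s := Iio _) (s' := Iio _)
        (Iio_subset_Iio (by omega)))) (fun n => ?_) (IsClosed.isCompact (by
        exact (isClosed_eq (continuous_apply _) continuous_const).inter
          (isClosed_biInter fun k _ => isClosed_eq (by fun_prop) (by fun_prop)))) fun n =>
      (isClosed_eq (continuous_apply _) continuous_const).inter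
        (isClosed_biInter fun k _ => isClosed_eq (by fun_prop) (by fun_prop))).imp fun x a =>
      ⟨fun k => mem_iInter₂.1 (mem_iInter.1 a (k + 1)).2 k (by omega), (mem_iInter.1 a 0).1⟩
    induction n with
    | zero =>
      induction i with
      | zero => exact ⟨update o 0 y, update_self .., by simp⟩
      | succ i a =>
        obtain ⟨x, a, b⟩ := a (f i y)
        exact ⟨update x (i + 1) y, update_self .., mem_iInter₂.2 (u i x y (mem_iInter₂.1 b) a.symm)⟩
    | succ n a =>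
      obtain ⟨x, a, b⟩ := a
      obtain ⟨z, d⟩ := (m _ (x (i + n))).1
      exact ⟨update x (i + n + 1) z, (update_of_ne (by omega) ..).trans a,
        mem_iInter₂.2 (u _ x z (mem_iInter₂.1 b) d)⟩
  have d : ∀ x z : ∀ k, P k, (∀ k, f k (x (k + 1)) = x k) → (∀ k, f k (z (k + 1)) = z k) →
      ∀ n, x n = z n → ∀ k ≤ n, x k = z k := fun x z a b n e k l => by
    induction l using Nat.decreasingInduction with
    | self => exact e
    | of_succ k _ e => rw [← a, ← b, e]
  generalize hF : {x : ∀ k, P k | (∀ k, f k (x (k + 1)) = x k) ∧ x i = y} = F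
  have r : ∀ x ∈ F, ∀ k, f k (x (k + 1)) = x k := fun x a => (hF.ge a).1
  have k : IsClosed F := hF ▸ ((setOf_forall _).symm ▸ isClosed_iInter fun k => isClosed_eq
    (by fun_prop) (by fun_prop)).inter (isClosed_eq (continuous_apply _) continuous_const)
  have t : ∀ n, i ≤ n → IsConnected ((· n) '' F) := fun n l => by
    induction n, l using Nat.le_induction with
    | base =>
      convert isConnected_singleton (x := y)
      exact subset_antisymm (image_subset_iff.2 fun x a => (hF.ge a).2)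
        (singleton_subset_iff.2 ((s i y).imp fun x a => ⟨hF.le a, a.2⟩))
    | succ n l a =>
      convert ((c n).isClosedMap.isQuotientMap (c n) fun y => (m n y).1).isCoinducing
        |>.isConnected_preimage_of_isClosed (m n) (k.isCompact.image (continuous_apply n)).isClosed a
      refine subset_antisymm (image_subset_iff.2 fun x a => ⟨x, a, (r x a n).symm⟩) ?_
      rintro z ⟨x, a, b⟩
      obtain ⟨v, e, rfl⟩ := s _ z
      exact ⟨v, hF.le ⟨e, (d v x e (r x a) n ((e n).symm.trans b.symm) i l).trans (hF.ge a).2⟩, rfl⟩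
  refine ⟨(t i le_rfl).1.of_image, (isPreconnected_iff_subset_of_fully_disjoint_closed k).2
    fun A B a b e g => ?_⟩
  obtain ⟨n, l⟩ := (((k.inter a).prod (k.inter b)).isCompact).elim_directed_family_closed
    (fun n => ⋂ k ≤ n, {p | p.1 k = p.2 k}) (fun n => isClosed_biInter fun k _ =>
      isClosed_eq (by fun_prop) (by fun_prop)) (eq_empty_of_forall_notMem fun p h =>
        disjoint_left.1 g h.1.1.2 ((funext fun k => mem_iInter₂.1 (mem_iInter.1 h.2 k) k le_rfl :
          p.1 = p.2) ▸ h.1.2.2)) (directed_of_isDirected_le fun _ _ h =>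
      biInter_subset_biInter_left (s := Iic _) (s' := Iic _) (Iic_subset_Iic.2 h))
  have v : ∀ x ∈ F ∩ A, ∀ z ∈ F ∩ B, x (i + n) ≠ z (i + n) := fun x a z b h =>
    eq_empty_iff_forall_notMem.1 l (x, z) ⟨⟨a, b⟩, mem_iInter₂.2 fun k q => d x z (r x a.1) (r z b.1) _ h k (by omega)⟩
  refine (isPreconnected_iff_subset_of_disjoint_closed.1 (t (i + n) (by omega)).2 _ _
    ((k.inter a).isCompact.image (continuous_apply _)).isClosed
    ((k.inter b).isCompact.image (continuous_apply _)).isClosed (by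
      rw [← image_union, ← inter_union_distrib_left, inter_eq_left.2 e])
    (eq_empty_of_forall_notMem fun _ ⟨_, ⟨x, a, p⟩, z, b, q⟩ => v x a z b (p.trans q.symm))).imp
    (fun h x a => (e a).resolve_right fun b => ?_) fun h x a => (e a).resolve_left fun b => ?_ <;>
    obtain ⟨z, p, q⟩ := h ⟨x, a, rfl⟩
  exacts [v z p x ⟨a, b⟩ q, v x ⟨a, b⟩ z p q.symm]

theorem poly {X : Type} [TopologicalSpace X] [CompactSpace X] [PreconnectedSpace X] {n : ℕ}
    {ι : Type} [Finite ι] {C : ι → Set (EuclideanSpace ℝ (Fin n))}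
    (c : ∀ i, IsClosed (C i) ∧ Convex ℝ (C i)) {p : X → EuclideanSpace ℝ (Fin n)} (pc : Continuous p)
    (r : range p = ⋃ i, C i) (m : ∀ x, IsPreconnected (p ⁻¹' {p x})) {j : X → ℝ × ℝ}
    (jc : IsEmbedding j) (s : G ⊆ range j) {S : Set X} (k : IsClosed S) (o : S.Nonempty)
    (g : ∀ x ∉ S, j x ∈ G) : range p ⊆ p '' S := fun y a => by_contra fun b => by
  have l := (k.isCompact.image pc).isClosed
  obtain ⟨i, z, e, ε, d, f⟩ : ∃ i, ∃ z ∈ range p, ∃ ε > 0, ∀ y ∈ range p ∩ closedBall z ε,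
      y ∈ C i ∧ y ∉ p '' S := by
    have := (isCompact_range pc).isClosed.completeSpace_coe
    obtain ⟨z, u, v⟩ := (dense_iUnion_interior_of_closed (f := fun i => ((↑) : range p → _) ⁻¹' C i)
      (fun i => (c i).1.preimage continuous_subtype_val) (by
        rw [← preimage_iUnion, ← r]; simp)).exists_mem_open
      (l.isOpen_compl.preimage continuous_subtype_val) ⟨⟨y, a⟩, b⟩
    obtain ⟨i, u⟩ := mem_iUnion.1 u
    obtain ⟨ε, e, d⟩ := nhds_basis_closedBall.mem_iff.1 (inter_mem (mem_interior_iff_mem_nhds.1 u)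
      ((l.isOpen_compl.preimage continuous_subtype_val).mem_nhds v))
    exact ⟨i, z, z.2, ε, e, fun y k => d (a := ⟨y, k.1⟩) k.2⟩
  have t : ∀ T ⊆ G, IsPreconnected T → IsPreconnected (j ⁻¹' T) := fun T a b =>
    jc.isPreconnected_image.1 ((image_preimage_eq_of_subset (a.trans s)).symm ▸ b)
  have u : ∀ x, p x ∈ closedBall z ε → j x ∈ G := fun x a => g x fun b =>
    (f _ ⟨⟨x, rfl⟩, a⟩).2 ⟨x, b, rfl⟩
  obtain ⟨w, v, x, x1, y, y1, l, q⟩ : ∃ w, (∀ x, j x ∈ h w '' G → p x ∈ closedBall z ε) ∧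
      ∃ x, j x ∈ h w '' G ∧ ∃ y, j y ∈ h w '' G ∧ ∃ l, p x l < p y l := by
    by_contra! v
    obtain ⟨x, rfl⟩ := e
    obtain ⟨a, b⟩ := o
    have q : 0 < dist (p a) (p x) := dist_pos.2 fun q =>
      (f _ ⟨⟨x, rfl⟩, mem_closedBall_self d.le⟩).2 ⟨a, b, q⟩
    obtain ⟨y, e⟩ := intermediate_value_univ x a (f := fun y => dist (p y) (p x)) (by fun_prop)
      ⟨show _ ≤ min (ε / 2) (dist (p a) (p x)) by simpa using (half_pos d).le, inf_le_right⟩
    have e' : dist (p y) (p x) < ε := e.trans_lt (min_lt_of_left_lt (half_lt_self d))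
    refine (dist_pos.1 ((lt_min (half_pos d) q).trans_eq e.symm)) (Countable.isTotallyDisconnected
      (s := C i ∩ ball (p x) ε) (((countable_range fun w => h w (MP_dce2ef_gt.e 0)).preimage jc.injective
        |>.image p).mono fun z b => ?_) _ Subset.rfl ((c i).2.inter (convex_ball _ _)).isPreconnected
      ⟨(f _ ⟨⟨y, rfl⟩, e'.le⟩).1, e'⟩ ⟨(f _ ⟨⟨x, rfl⟩, mem_closedBall_self d.le⟩).1, mem_ball_self d⟩)
    obtain ⟨y, rfl⟩ := r.ge (mem_iUnion_of_mem i b.1)
    obtain ⟨N, n1, n2⟩ := jc.isOpen_iff.1 (isOpen_ball (x := p x) (ε := ε).preimage pc)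
    obtain ⟨δ, d1, d2⟩ := Metric.isOpen_iff.1 n1 (j y) (n2.ge b.2)
    obtain ⟨m, d3⟩ := sm d1
    obtain ⟨w, w1, w2⟩ := hn m _ (u y (ball_subset_closedBall b.2))
    obtain ⟨a, e⟩ := s (hG w ⟨_, ge 0, rfl⟩)
    have := v w fun x a => ball_subset_closedBall (n2.le (d2 (d3 w w1.ge _ w2 a)))
    exact ⟨a, ⟨w, e.symm⟩, PiLp.ext fun l => (this y w2 a ⟨_, ge 0, e.symm⟩ l).antisymm
      (this a ⟨_, ge 0, e.symm⟩ y w2 l)⟩
  obtain ⟨τ, c1, c2⟩ := ((((countable_range _ : Q.Countable).preimage jc.injective).image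
    fun x => p x l).dense_compl ℝ).exists_mem_open isOpen_Ioo (nonempty_Ioo.2 q)
  have q : ∀ x, p x l = τ → j x ∉ Q := fun x a b => c1 ⟨x, b, a⟩
  obtain ⟨a, a1, a2⟩ := (t _ (hG w) (gp.image _ (hc w).continuousOn)).intermediate_value x1 y1
    (f := fun x => p x l) (by fun_prop) (Ioo_subset_Icc_self c2)
  obtain ⟨b, b1, b2⟩ := (t _ (sdiff_subset.trans (hG w)) (f4 w (q a a2))).intermediate_value
    ⟨x1, fun e => c2.1.ne (jc.injective e ▸ a2)⟩ ⟨y1, fun e => c2.2.ne' (jc.injective e ▸ a2)⟩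
    (f := fun x => p x l) (by fun_prop) (Ioo_subset_Icc_self c2)
  have L : IsConnected (rangeFactorization p ⁻¹' ((↑) ⁻¹' (C i ∩ closedBall z ε ∩ {y | y l = τ}))) :=
    (pc.rangeFactorization.isClosedMap.isQuotientMap pc.rangeFactorization
      rangeFactorization_surjective).isCoinducing.isConnected_preimage_of_isClosed
      (fun ⟨_, x, rfl⟩ => ⟨⟨x, rfl⟩, by convert m x using 1; ext; simp [Subtype.ext_iff]⟩)
      ((((c i).1.inter isClosed_closedBall).inter (isClosed_eq (by fun_prop)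
        continuous_const)).preimage continuous_subtype_val)
      ⟨⟨⟨_, a, rfl⟩, ⟨(f _ ⟨⟨a, rfl⟩, v a a1⟩).1, v a a1⟩, a2⟩, IsInducing.subtypeVal.isPreconnected_image.1
        (by
          rw [image_preimage_eq_of_subset fun y k => by simpa using r.ge (mem_iUnion_of_mem i k.1.1)]
          exact (((c i).2.inter (convex_closedBall _ _)).inter (convex_hyperplane
            (EuclideanSpace.proj l).isLinear τ)).isPreconnected)⟩
  exact b1.2 (f3 (L.2.image j jc.continuous.continuousOn) (image_subset_iff.2 fun x k => u x k.1.2)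
    (forall_mem_image.2 fun x k => q x k.2) ⟨b, ⟨⟨(f _ ⟨⟨b, rfl⟩, v b b1.1⟩).1, v b b1.1⟩, b2⟩, rfl⟩
      ⟨a, ⟨⟨(f _ ⟨⟨a, rfl⟩, v a a1⟩).1, v a a1⟩, a2⟩, rfl⟩)

theorem zd {X ι : Type} [MetricSpace X] [SecondCountableTopology X] {Z : Set X}
    {T : Z → Fin 3 → ℝ} (t : IsInducing T) (h : ∀ y i, Irrational (T y i)) (U : ι → Set X)
    (o : ∀ i, IsOpen (U i)) (c : ⋃ i, U i = univ) : ∃ V : ι → Set X, (∀ i, IsOpen (V i)) ∧
      (∀ i, V i ⊆ U i) ∧ (∀ z ∈ Z, ∃ i, z ∈ V i) ∧ ∀ z i j, z ∈ V i → z ∈ V j → i = j := by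
  obtain ⟨V, v1, v2, v3, v4⟩ := MP_da03b0_gt.zd t h (range U) (forall_mem_range.2 o)
    (c.ge.trans' (subset_univ _))
  refine ⟨fun i => {x ∈ V (U i) | rangeSplitting U ⟨_, i, rfl⟩ = i}, fun i => ?_,
    fun i x a => v2 _ a.1, fun z a => ?_, fun z i j a b => ?_⟩
  · by_cases k : rangeSplitting U ⟨_, i, rfl⟩ = i <;> simp [k, v1 _ ⟨i, rfl⟩]
  · obtain ⟨W, b, d⟩ := v3 z a
    have := apply_rangeSplitting U ⟨W, b⟩
    exact ⟨rangeSplitting U ⟨W, b⟩, by simpa [this]⟩
  · rw [← a.2, ← b.2]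
    simp [v4 z _ _ a.1 b.1]

end Pool.Agent.H.MP_dce2ef_gt
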